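import Mathlib
import Pool.Agent.H97.Mcm.Near

/-!
Cells and facets of the sign vectors of an `r`-dimensional subspace `V` of `ℝ^n` all of whose
Plücker coordinates are non-zero, near a simplicial cell.
-/

set_option autoImplicit false

namespace Pool.Agent.H97.Mcm2

open Finset Pool.Agent.H97.Mcm

variable {ι : Type*} [Fintype ι] [DecidableEq ι]

/-- `N` is the set of negative places of an element of `V` without zeros. -/
def Tp (V : Submodule ℝ (ι → ℝ)) (N : Finset ι) : Prop :=
  ∃ f ∈ V, (∀ i ∈ N, f i < 0) ∧ ∀ i, i ∉ N → 0 < f i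

/-- The signs of `N`. -/
def sg (N : Finset ι) : ι → ℝ := fun i => if i ∈ N then -1 else 1

theorem Tp.rls {V : Submodule ℝ (ι → ℝ)} {N : Finset ι} (h : Tp V N) : Rls V (sg N) := by
  obtain ⟨f, hf, h1, h2⟩ := h
  refine ⟨f, hf, fun i => ?_⟩
  by_cases hi : i ∈ N
  · have := h1 i hi
    simp only [sg, hi, if_true]
    linarith
  · have := h2 i hi
    simp only [sg, hi, if_false]
    linarith

theorem Tp.of_rls {V : Submodule ℝ (ι → ℝ)} {N : Finset ι} (h : Rls V (sg N)) : Tp V N := by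
  obtain ⟨f, hf, h1⟩ := h
  refine ⟨f, hf, fun i hi => ?_, fun i hi => ?_⟩
  · have := h1 i
    simp only [sg, hi, if_true] at this
    linarith
  · have := h1 i
    simp only [sg, hi, if_false] at this
    linarith

theorem sg_symmDiff (N : Finset ι) (m : ι) : sg (symmDiff N {m}) = flp (sg N) m := by
  funext i
  by_cases him : i = m
  · subst him
    by_cases hi : i ∈ N
    · simp [sg, flp, Finset.mem_symmDiff, hi]
    · simp [sg, flp, Finset.mem_symmDiff, hi]
  · by_cases hi : i ∈ N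
    · simp [sg, flp, Finset.mem_symmDiff, hi, him]
    · simp [sg, flp, Finset.mem_symmDiff, hi, him]

theorem Tp.pert {V : Submodule ℝ (ι → ℝ)} {N : Finset ι} {f w : ι → ℝ} (hf : f ∈ V) (hw : w ∈ V)
    (h1 : ∀ i ∈ N, f i < 0 ∨ (f i = 0 ∧ w i < 0))
    (h2 : ∀ i, i ∉ N → 0 < f i ∨ (f i = 0 ∧ 0 < w i)) : Tp V N := by
  refine Tp.of_rls (perturb hf hw fun i => ?_)
  by_cases hi : i ∈ N
  · simp only [sg, hi, if_true]
    rcases h1 i hi with h | ⟨h, h'⟩
    · left; linarith
    · right; exact ⟨h, by linarith⟩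
  · simp only [sg, hi, if_false]
    rcases h2 i hi with h | ⟨h, h'⟩
    · left; linarith
    · right; exact ⟨h, by linarith⟩

/-- Prescribing at most `r` values. -/
theorem ex_le {r : ℕ} {V : Submodule ℝ (ι → ℝ)} (hV : Unif r V) (hr : r ≤ Fintype.card ι)
    {S : Finset ι} (hS : S.card ≤ r) (t : ι → ℝ) : ∃ f ∈ V, ∀ i ∈ S, f i = t i := by
  obtain ⟨K, hSK, hK⟩ := Finset.exists_superset_card_eq hS (by simpa using hr)
  obtain ⟨f, hf, h⟩ := hV.ex K hK t
  exact ⟨f, hf, fun i hi => h i (hSK hi)⟩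

omit [Fintype ι] [DecidableEq ι] in
/-- Vanishing at `r` or more places. -/
theorem uq_ge {r : ℕ} {V : Submodule ℝ (ι → ℝ)} (hV : Unif r V) {S : Finset ι}
    (hS : r ≤ S.card) {f : ι → ℝ} (hf : f ∈ V) (h : ∀ i ∈ S, f i = 0) : f = 0 := by
  obtain ⟨K, hKS, hK⟩ := Finset.exists_subset_card_eq hS
  exact hV.uq K hK f hf fun i hi => h i (hKS hi)

/-- Near a zero set of size `r - 1` all signs on the zero set occur. -/
theorem Tp.of_zero {r : ℕ} {V : Submodule ℝ (ι → ℝ)} (hV : Unif r V) (hr : r ≤ Fintype.card ι)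
    {G : Finset ι} (hG : G.card + 1 = r) {f : ι → ℝ} (hf : f ∈ V) (h0 : ∀ i ∈ G, f i = 0)
    {N : Finset ι} (h1 : ∀ i ∈ N, i ∉ G → f i < 0) (h2 : ∀ i, i ∉ N → i ∉ G → 0 < f i) :
    Tp V N := by
  obtain ⟨w, hw, hw'⟩ := ex_le hV hr (S := G) (by omega) (sg N)
  refine Tp.pert hf hw (fun i hi => ?_) fun i hi => ?_
  · by_cases hiG : i ∈ G
    · right
      refine ⟨h0 i hiG, ?_⟩
      rw [hw' i hiG]
      simp [sg, hi]
    · left
      exact h1 i hi hiG
  · by_cases hiG : i ∈ G
    · right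
      refine ⟨h0 i hiG, ?_⟩
      rw [hw' i hiG]
      simp [sg, hi]
    · left
      exact h2 i hi hiG

/-- There is a cell with at least `m` facets. -/
def Rich (V : Submodule ℝ (ι → ℝ)) (m : ℕ) : Prop :=
  ∃ N B : Finset ι, Tp V N ∧ m ≤ B.card ∧ ∀ i ∈ B, Tp V (symmDiff N {i})

/-- All the cells around the simplicial cell. -/
theorem chart_tp {r : ℕ} {V : Submodule ℝ (ι → ℝ)} {K : Finset ι} {u : ι → ι → ℝ}
    (hu : Chart r V K u) {P : Finset ι} (hP : P ⊆ K) (hne : P.Nonempty) : Tp V (K \ P) := by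
  have hin : ∀ (Q : Finset ι), Q ⊆ K → ∀ i ∈ Q, (∑ k ∈ Q, u k) i = u i i := by
    intro Q hQ i hi
    rw [Finset.sum_apply, Finset.sum_eq_single i]
    · intro k hk hki
      exact hu.zero k (hQ hk) i (hQ hi) (Ne.symm hki)
    · intro h
      exact absurd hi h
  have hout : ∀ (Q : Finset ι), Q ⊆ K → ∀ i ∈ K, i ∉ Q → (∑ k ∈ Q, u k) i = 0 := by
    intro Q hQ i hiK hi
    rw [Finset.sum_apply]
    refine Finset.sum_eq_zero fun k hk => hu.zero k (hQ hk) i hiK ?_
    rintro rfl
    exact hi hk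
  refine Tp.pert (f := ∑ k ∈ P, u k) (w := - ∑ k ∈ K \ P, u k)
    (V.sum_mem fun k hk => hu.mem k (hP hk))
    (V.neg_mem (V.sum_mem fun k hk => hu.mem k (Finset.sdiff_subset hk)))
    (fun i hi => ?_) fun i hi => ?_
  · right
    have hiK := (Finset.mem_sdiff.1 hi).1
    refine ⟨hout P hP i hiK (Finset.mem_sdiff.1 hi).2, ?_⟩
    rw [Pi.neg_apply, hin _ Finset.sdiff_subset i hi]
    have := hu.pos i hiK
    linarith
  · left
    by_cases hiP : i ∈ P
    · rw [hin P hP i hiP]
      exact hu.pos i (hP hiP)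
    · have hiK : i ∉ K := fun h => hi (Finset.mem_sdiff.2 ⟨h, hiP⟩)
      rw [Finset.sum_apply]
      exact Finset.sum_pos (fun k hk => hu.out k (hP hk) i hiK) hne

/-- `f` vanishes on the `r - 1` elements `G` of `L` and is positive on the rest of `L`. -/
structure Fac (r : ℕ) (V : Submodule ℝ (ι → ℝ)) (L G : Finset ι) (f : ι → ℝ) : Prop where
  sub : G ⊆ L
  card : G.card + 1 = r
  mem : f ∈ V
  zero : ∀ i ∈ G, f i = 0
  pos : ∀ i ∈ L, i ∉ G → 0 < f i

theorem Fac.ne {r : ℕ} {V : Submodule ℝ (ι → ℝ)} (hV : Unif r V) {L G : Finset ι} {f : ι → ℝ}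
    (h : Fac r V L G f) (hne : f ≠ 0) {i : ι} (hi : i ∉ G) : f i ≠ 0 :=
  hV.ne_zero h.card h.mem h.zero hne hi

/-- There is a facet on whose positive side `k` lies. -/
theorem exists_fac {r : ℕ} (hr : 1 ≤ r) {V : Submodule ℝ (ι → ℝ)} (hV : Unif r V)
    {L : Finset ι} (hL : r ≤ L.card) {k : ι} (hk : k ∉ L) {u : ι → ℝ} (hu : u ∈ V)
    (huL : ∀ i ∈ L, 0 < u i) (huk : 0 < u k) : ∃ (G : Finset ι) (f : ι → ℝ),
      Fac r V L G f ∧ 0 < f k := by
  have hn : r ≤ Fintype.card ι := hL.trans (Finset.card_le_univ L)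
  have key : ∀ m : ℕ, m + 1 ≤ r → ∃ f ∈ V, (∀ i ∈ L, 0 ≤ f i) ∧ 0 < f k ∧
      m ≤ (L.filter fun i => f i = 0).card := by
    intro m
    induction m with
    | zero => exact fun _ => ⟨u, hu, fun i hi => (huL i hi).le, huk, Nat.zero_le _⟩
    | succ m ih =>
      intro hm
      obtain ⟨f, hf, hfL, hfk, hfm⟩ := ih (by omega)
      by_cases hbig : m + 1 ≤ (L.filter fun i => f i = 0).card
      · exact ⟨f, hf, hfL, hfk, hbig⟩
      have hZ : (L.filter fun i => f i = 0).card = m := by omega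
      obtain ⟨l₁, hl₁⟩ : ∃ l₁, l₁ ∈ L \ (L.filter fun i => f i = 0) := by
        have : 0 < (L \ (L.filter fun i => f i = 0)).card := by
          rw [Finset.card_sdiff_of_subset (Finset.filter_subset _ _)]
          omega
        exact Finset.card_pos.1 this
      rw [Finset.mem_sdiff, Finset.mem_filter] at hl₁
      have hl₁0 : f l₁ ≠ 0 := fun h => hl₁.2 ⟨hl₁.1, h⟩
      obtain ⟨w, hw, hw'⟩ := ex_le hV hn
        (S := (L.filter fun i => f i = 0) ∪ {k, l₁}) (by
          refine (Finset.card_union_le _ _).trans ?_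
          have : ({k, l₁} : Finset ι).card ≤ 2 := Finset.card_le_two
          omega) (fun i => if i = l₁ then 1 else 0)
      have hwZ : ∀ i ∈ L, f i = 0 → w i = 0 := by
        intro i hi h0
        rw [hw' i (by simp [hi, h0]), if_neg]
        rintro rfl
        exact hl₁0 h0
      have hwk : w k = 0 := by
        rw [hw' k (by simp), if_neg]
        rintro rfl
        exact hk hl₁.1
      have hwl : w l₁ = 1 := by
        rw [hw' l₁ (by simp), if_pos rfl]
      obtain ⟨m₀, hm₀, hmin⟩ := Finset.exists_min_image (L.filter fun i => 0 < w i)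
        (fun i => f i / w i) ⟨l₁, by simp [hl₁.1, hwl]⟩
      rw [Finset.mem_filter] at hm₀
      have ht : 0 ≤ f m₀ / w m₀ := div_nonneg (hfL m₀ hm₀.1) hm₀.2.le
      refine ⟨f - (f m₀ / w m₀) • w, V.sub_mem hf (V.smul_mem _ hw), ?_, ?_, ?_⟩
      · intro i hi
        simp only [Pi.sub_apply, Pi.smul_apply, smul_eq_mul]
        by_cases hwi : 0 < w i
        · have h1 := hmin i (by simp [hi, hwi])
          have h2 := mul_le_mul_of_nonneg_right h1 hwi.le
          rw [div_mul_cancel₀ _ hwi.ne'] at h2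
          linarith
        · have h1 := mul_nonpos_of_nonneg_of_nonpos ht (not_lt.1 hwi)
          have h2 := hfL i hi
          linarith
      · simp only [Pi.sub_apply, Pi.smul_apply, smul_eq_mul, hwk, mul_zero, sub_zero]
        exact hfk
      · have hm₀Z : m₀ ∉ L.filter fun i => f i = 0 := by
          intro h
          rw [Finset.mem_filter] at h
          have := hwZ m₀ h.1 h.2
          linarith [hm₀.2]
        have hsub : insert m₀ (L.filter fun i => f i = 0) ⊆
            L.filter fun i => (f - (f m₀ / w m₀) • w) i = 0 := by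
          intro i hi
          rw [Finset.mem_filter]
          rcases Finset.mem_insert.1 hi with rfl | hi
          · refine ⟨hm₀.1, ?_⟩
            simp only [Pi.sub_apply, Pi.smul_apply, smul_eq_mul]
            rw [div_mul_cancel₀ _ hm₀.2.ne', sub_self]
          · rw [Finset.mem_filter] at hi
            refine ⟨hi.1, ?_⟩
            simp only [Pi.sub_apply, Pi.smul_apply, smul_eq_mul]
            rw [hwZ i hi.1 hi.2, hi.2]
            ring
        have := Finset.card_le_card hsub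
        rw [Finset.card_insert_of_notMem hm₀Z, hZ] at this
        exact this
  obtain ⟨f, hf, hfL, hfk, hfm⟩ := key (r - 1) (by omega)
  have hne : f ≠ 0 := by
    rintro rfl
    simp at hfk
  have hle : (L.filter fun i => f i = 0).card + 1 ≤ r := by
    by_contra hcon
    exact hne (uq_ge hV (S := L.filter fun i => f i = 0) (by omega) hf
      fun i hi => (Finset.mem_filter.1 hi).2)
  refine ⟨L.filter fun i => f i = 0, f, ⟨Finset.filter_subset _ _, by omega, hf,
    fun i hi => (Finset.mem_filter.1 hi).2, fun i hi hi' => ?_⟩, hfk⟩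
  refine lt_of_le_of_ne (hfL i hi) fun h => hi' ?_
  rw [Finset.mem_filter]
  exact ⟨hi, h.symm⟩

/-- The neighbour of a facet. -/
theorem Fac.neighbour {r : ℕ} {V : Submodule ℝ (ι → ℝ)} (hV : Unif r V) {L : Finset ι}
    (hL : r ≤ L.card) {G : Finset ι} {f : ι → ℝ} (h : Fac r V L G f) {l : ι} (hl : l ∈ G) :
    ∃ (G' : Finset ι) (f' : ι → ℝ), Fac r V L G' f' ∧ G.erase l ⊆ G' ∧ l ∉ G' := by
  have hn : r ≤ Fintype.card ι := hL.trans (Finset.card_le_univ L)
  have hc := h.card
  obtain ⟨w, hw, hw'⟩ := ex_le hV hn (S := G) (by omega) (fun i => if i = l then 1 else 0)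
  have hwl : w l = 1 := by rw [hw' l hl, if_pos rfl]
  have hw0 : ∀ i ∈ G, i ≠ l → w i = 0 := fun i hi hil => by rw [hw' i hi, if_neg hil]
  have hne : (L \ G).Nonempty := by
    rw [← Finset.card_pos, Finset.card_sdiff_of_subset h.sub]
    omega
  obtain ⟨m₀, hm₀, hmin⟩ := Finset.exists_min_image (L \ G) (fun i => w i / f i) hne
  rw [Finset.mem_sdiff] at hm₀
  have hf0 : 0 < f m₀ := h.pos m₀ hm₀.1 hm₀.2
  have hlm : l ≠ m₀ := fun h' => hm₀.2 (h' ▸ hl)
  have hmG : m₀ ∉ G.erase l := fun h' => hm₀.2 (Finset.mem_of_mem_erase h')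
  let f' : ι → ℝ := w - (w m₀ / f m₀) • f
  have hf' : ∀ i, f' i = w i - w m₀ / f m₀ * f i := fun i => by simp [f']
  have hf'V : f' ∈ V := V.sub_mem hw (V.smul_mem _ h.mem)
  have hf'l : f' l = 1 := by
    rw [hf', hwl, h.zero l hl, mul_zero, sub_zero]
  have hf'0 : ∀ i ∈ insert m₀ (G.erase l), f' i = 0 := by
    intro i hi
    rcases Finset.mem_insert.1 hi with rfl | hi
    · rw [hf', div_mul_cancel₀ _ hf0.ne', sub_self]
    · rw [Finset.mem_erase] at hi
      rw [hf', hw0 i hi.2 hi.1, h.zero i hi.2, mul_zero, sub_zero]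
  have hcard : (insert m₀ (G.erase l)).card + 1 = r := by
    rw [Finset.card_insert_of_notMem hmG, Finset.card_erase_of_mem hl]
    have : 0 < G.card := Finset.card_pos.2 ⟨l, hl⟩
    omega
  have hf'ne : f' ≠ 0 := by
    intro h'
    have := congrFun h' l
    rw [hf'l] at this
    exact one_ne_zero this
  refine ⟨insert m₀ (G.erase l), f', ⟨?_, hcard, hf'V, hf'0, ?_⟩, Finset.subset_insert _ _, ?_⟩
  · intro i hi
    rcases Finset.mem_insert.1 hi with rfl | hi
    · exact hm₀.1
    · exact h.sub (Finset.mem_of_mem_erase hi)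
  · intro i hi hi'
    have h0 : f' i ≠ 0 := hV.ne_zero hcard hf'V hf'0 hf'ne hi'
    by_cases hil : i = l
    · rw [hil, hf'l]
      exact one_pos
    · have hiG : i ∉ G := fun h' => hi' (Finset.mem_insert_of_mem (Finset.mem_erase.2 ⟨hil, h'⟩))
      refine lt_of_le_of_ne ?_ (Ne.symm h0)
      have h1 := hmin i (Finset.mem_sdiff.2 ⟨hi, hiG⟩)
      have h2 := h.pos i hi hiG
      have h3 := mul_le_mul_of_nonneg_right h1 h2.le
      rw [div_mul_cancel₀ _ h2.ne'] at h3
      rw [hf']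
      linarith
  · intro h'
    rcases Finset.mem_insert.1 h' with h' | h'
    · exact hlm h'
    · exact (Finset.mem_erase.1 h').1 rfl

end Pool.Agent.H97.Mcm2
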