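import Mathlib
import Pool.Agent.H97.Mcm2.Basic

/-!
If every facet lies on the positive side of exactly one element of `K` and different facets belong
to different elements, then the facets are those of a simplex.
-/

set_option autoImplicit false

namespace Pool.Agent.H97.Mcm2

open Finset Pool.Agent.H97.Mcm

variable {ι : Type*} [Fintype ι] [DecidableEq ι]

theorem simplex {r : ℕ} (hr : 3 ≤ r) {V : Submodule ℝ (ι → ℝ)} (hV : Unif r V)
    {K L : Finset ι} (hK : K.card = r) (hL : r ≤ L.card)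
    (hex : ∀ k ∈ K, ∃ (G : Finset ι) (f : ι → ℝ), Fac r V L G f ∧ 0 < f k)
    (h1 : ∀ (G : Finset ι) (f : ι → ℝ), Fac r V L G f →
      ∃ k ∈ K, 0 < f k ∧ ∀ j ∈ K, j ≠ k → f j < 0)
    (h2 : ∀ (G : Finset ι) (f : ι → ℝ) (G' : Finset ι) (f' : ι → ℝ), ∀ k ∈ K, Fac r V L G f →
      Fac r V L G' f' → 0 < f k → 0 < f' k → G = G') :
    ∃ (l : ι → ι) (Y : ι → ι → ℝ), (∀ k ∈ K, l k ∈ L) ∧
      (∀ k ∈ K, ∀ j ∈ K, l k = l j → k = j) ∧
      (∀ k ∈ K, Fac r V L ((K.erase k).image l) (Y k)) ∧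
      (∀ k ∈ K, 0 < Y k k) ∧ ∀ k ∈ K, ∀ j ∈ K, j ≠ k → Y k j < 0 := by
  classical
  have hex' : ∀ k, ∃ (G : Finset ι) (f : ι → ℝ), k ∈ K → Fac r V L G f ∧ 0 < f k := by
    intro k
    by_cases hk : k ∈ K
    · obtain ⟨G, f, h⟩ := hex k hk
      exact ⟨G, f, fun _ => h⟩
    · exact ⟨∅, 0, fun h => absurd h hk⟩
  choose G Y hGY using hex'
  have hF : ∀ k ∈ K, Fac r V L (G k) (Y k) := fun k hk => (hGY k hk).1
  have hpos : ∀ k ∈ K, 0 < Y k k := fun k hk => (hGY k hk).2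
  have hneg : ∀ k ∈ K, ∀ j ∈ K, j ≠ k → Y k j < 0 := by
    intro k hk j hj hjk
    obtain ⟨k', hk', hp, hn⟩ := h1 _ _ (hF k hk)
    have : k = k' := by
      by_contra h
      have e1 := hn k hk h
      have e2 := hpos k hk
      linarith
    subst this
    exact hn j hj hjk
  -- the neighbours
  have hnb : ∀ k, ∀ l, ∃ j, k ∈ K → l ∈ G k → j ∈ K.erase k ∧ (G k).erase l ⊆ G j ∧ l ∉ G j := by
    intro k l
    by_cases hk : k ∈ K
    · by_cases hl : l ∈ G k
      · obtain ⟨G', f', hf', hsub, hl'⟩ := (hF k hk).neighbour hV hL hl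
        obtain ⟨j, hj, hp, -⟩ := h1 _ _ hf'
        have e := h2 _ _ _ _ j hj hf' (hF j hj) hp (hpos j hj)
        subst e
        refine ⟨j, fun _ _ => ⟨Finset.mem_erase.2 ⟨?_, hj⟩, hsub, hl'⟩⟩
        rintro rfl
        exact hl' hl
      · exact ⟨k, fun _ h => absurd h hl⟩
    · exact ⟨k, fun h => absurd h hk⟩
  choose c hc using hnb
  have hcard : ∀ k ∈ K, (G k).card + 1 = r := fun k hk => (hF k hk).card
  have hsurj : ∀ k ∈ K, ∀ j ∈ K, j ≠ k → ∃ l ∈ G k, c k l = j := by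
    intro k hk j hj hjk
    have hmaps : Set.MapsTo (c k) (G k : Finset ι) (K.erase k : Finset ι) := fun l hl =>
      (hc k l hk hl).1
    have hinj : Set.InjOn (c k) (G k : Finset ι) := by
      intro l hl m hm hlm
      by_contra hne
      have e1 := (hc k l hk hl).2.1
      have e2 := (hc k m hk hm).2.2
      rw [← hlm] at e2
      exact e2 (e1 (Finset.mem_erase.2 ⟨Ne.symm hne, hm⟩))
    have hs := Finset.surjOn_of_injOn_of_card_le (c k) hmaps hinj (by
      rw [Finset.card_erase_of_mem hk, hK]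
      have := hcard k hk
      omega)
    obtain ⟨l, hl, hl'⟩ := hs (show j ∈ ((K.erase k : Finset ι) : Set ι) by simp [hj, hjk])
    exact ⟨l, hl, hl'⟩
  -- `x k j` is the element of `G k` not in `G j`
  have hx : ∀ k j, ∃ l, k ∈ K → j ∈ K → j ≠ k → l ∈ G k ∧ c k l = j := by
    intro k j
    by_cases h : k ∈ K ∧ j ∈ K ∧ j ≠ k
    · obtain ⟨l, h3, h4⟩ := hsurj k h.1 j h.2.1 h.2.2
      exact ⟨l, fun _ _ _ => ⟨h3, h4⟩⟩
    · exact ⟨k, fun h3 h4 h5 => absurd ⟨h3, h4, h5⟩ h⟩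
  choose x hx using hx
  have hx1 : ∀ k ∈ K, ∀ j ∈ K, j ≠ k → x k j ∈ G k := fun k hk j hj h => (hx k j hk hj h).1
  have hx2 : ∀ k ∈ K, ∀ j ∈ K, j ≠ k → x k j ∉ G j := by
    intro k hk j hj h
    have := (hc k (x k j) hk (hx1 k hk j hj h)).2.2
    rwa [(hx k j hk hj h).2] at this
  have hx3 : ∀ k ∈ K, ∀ j ∈ K, j ≠ k → (G k).erase (x k j) ⊆ G j := by
    intro k hk j hj h
    have := (hc k (x k j) hk (hx1 k hk j hj h)).2.1
    rwa [(hx k j hk hj h).2] at this
  have hindep : ∀ j ∈ K, ∀ k ∈ K, ∀ k' ∈ K, j ≠ k → j ≠ k' → k ≠ k' → x k j = x k' j := by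
    intro j hj k hk k' hk' hjk hjk' hkk'
    have e0 : x k j ≠ x k k' := by
      intro h
      have e1 := (hx k j hk hj hjk).2
      have e2 := (hx k k' hk hk' (Ne.symm hkk')).2
      rw [h, e2] at e1
      exact hjk' e1.symm
    have e1 : x k j ∈ G k' :=
      hx3 k hk k' hk' (Ne.symm hkk') (Finset.mem_erase.2 ⟨e0, hx1 k hk j hj hjk⟩)
    have e2 := hx2 k hk j hj hjk
    by_contra hne
    exact e2 (hx3 k' hk' j hj hjk' (Finset.mem_erase.2 ⟨hne, e1⟩))
  have hother : ∀ j, ∃ k, j ∈ K → k ∈ K ∧ j ≠ k := by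
    intro j
    by_cases hj : j ∈ K
    · have : 0 < (K.erase j).card := by
        rw [Finset.card_erase_of_mem hj, hK]
        omega
      obtain ⟨k, hk⟩ := Finset.card_pos.1 this
      rw [Finset.mem_erase] at hk
      exact ⟨k, fun _ => ⟨hk.2, Ne.symm hk.1⟩⟩
    · exact ⟨j, fun h => absurd h hj⟩
  choose o ho using hother
  let l : ι → ι := fun j => x (o j) j
  have hl : ∀ j ∈ K, ∀ k ∈ K, j ≠ k → l j = x k j := by
    intro j hj k hk hjk
    by_cases hok : o j = k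
    · simp only [l, hok]
    · exact hindep j hj (o j) (ho j hj).1 k hk (ho j hj).2 hjk hok
  have hl1 : ∀ j ∈ K, ∀ k ∈ K, j ≠ k → l j ∈ G k := by
    intro j hj k hk hjk
    rw [hl j hj k hk hjk]
    exact hx1 k hk j hj hjk
  have hl2 : ∀ j ∈ K, l j ∉ G j := fun j hj =>
    hx2 (o j) (ho j hj).1 j hj (ho j hj).2
  have hinj : ∀ k ∈ K, ∀ j ∈ K, l k = l j → k = j := by
    intro k hk j hj h
    by_contra hne
    have e1 := hl1 k hk j hj hne
    rw [h] at e1
    exact hl2 j hj e1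
  have hGimg : ∀ k ∈ K, (K.erase k).image l = G k := by
    intro k hk
    refine Finset.eq_of_subset_of_card_le ?_ ?_
    · intro i hi
      obtain ⟨j, hj, rfl⟩ := Finset.mem_image.1 hi
      rw [Finset.mem_erase] at hj
      exact hl1 j hj.2 k hk hj.1
    · rw [Finset.card_image_of_injOn, Finset.card_erase_of_mem hk, hK]
      · have := hcard k hk
        omega
      · intro a ha b hb hab
        exact hinj a (Finset.mem_of_mem_erase ha) b (Finset.mem_of_mem_erase hb) hab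
  refine ⟨l, Y, fun k hk => ?_, hinj, fun k hk => ?_, hpos, hneg⟩
  · have e := ho k hk
    exact (hF _ e.1).sub (hl1 k hk _ e.1 e.2)
  · rw [hGimg k hk]
    exact hF k hk

end Pool.Agent.H97.Mcm2
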