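import Mathlib
import Pool.Agent.H97.Mcm2.Simplex

/-!
Peeling the hull of the elements outside `K`.
-/

set_option autoImplicit false

namespace Pool.Agent.H97.Mcm2

open Finset Pool.Agent.H97.Mcm

variable {ι : Type*} [Fintype ι] [DecidableEq ι]

/-- The cells near `K` when the elements `E` are negative: `C` is the set of allowed elements of
`K`, and the elements of `X` may be flipped. -/
structure Nb (V : Submodule ℝ (ι → ℝ)) (K E C X : Finset ι) : Prop where
  disj : Disjoint K E
  csub : C ⊆ K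
  xsub : X ⊆ E
  tp : ∀ P : Finset ι, P ⊆ C → P.Nonempty → Tp V ((K \ P) ∪ E)
  flip : ∀ P : Finset ι, P ⊆ C → P.Nonempty → ∀ x ∈ X, Tp V (symmDiff ((K \ P) ∪ E) {x})

theorem symmDiff_K {K E P : Finset ι} {k : ι} (hK : k ∈ K) (hE : k ∉ E) :
    symmDiff ((K \ P) ∪ E) {k} = (K \ symmDiff P {k}) ∪ E := by
  ext i
  simp only [Finset.mem_symmDiff, Finset.mem_union, Finset.mem_sdiff, Finset.mem_singleton]
  by_cases hik : i = k
  · subst hik
    simp only [hK, hE]
    tauto
  · simp only [hik]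
    tauto

/-- The positive part of `f` on `K`. -/
noncomputable def pp (K : Finset ι) (f : ι → ℝ) : Finset ι := K.filter fun i => 0 < f i

/-- Data of a facet of the elements outside `K ∪ E` beyond which all the elements of `E` lie, and
whose positive side contains only elements of `C`. -/
structure Good (r : ℕ) (V : Submodule ℝ (ι → ℝ)) (K E C G : Finset ι) (f : ι → ℝ) : Prop where
  fac : Fac r V (K ∪ E)ᶜ G f
  neg : ∀ i ∈ E, f i < 0
  ne : ∀ i ∈ K, f i ≠ 0
  sub : pp K f ⊆ C

theorem Good.disjK {r : ℕ} {V : Submodule ℝ (ι → ℝ)} {K E C G : Finset ι} {f : ι → ℝ}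
    (h : Good r V K E C G f) {i : ι} (hi : i ∈ G) : i ∉ K ∧ i ∉ E := by
  have := h.fac.sub hi
  simpa using this

theorem Good.tp {r : ℕ} {V : Submodule ℝ (ι → ℝ)} (hV : Unif r V) (hr : r ≤ Fintype.card ι)
    {K E C G : Finset ι} {f : ι → ℝ} (h : Good r V K E C G f) :
    Tp V ((K \ pp K f) ∪ E) ∧ ∀ g ∈ G, Tp V (symmDiff ((K \ pp K f) ∪ E) {g}) := by
  have key : ∀ N : Finset ι, (∀ i, i ∉ G → (i ∈ N ↔ i ∈ (K \ pp K f) ∪ E)) → Tp V N := by
    intro N hN
    refine Tp.of_zero hV hr h.fac.card h.fac.mem h.fac.zero (fun i hi hiG => ?_)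
      fun i hi hiG => ?_
    · rw [hN i hiG] at hi
      rcases Finset.mem_union.1 hi with hi | hi
      · rw [Finset.mem_sdiff, pp, Finset.mem_filter] at hi
        refine lt_of_le_of_ne (not_lt.1 fun h' => hi.2 ⟨hi.1, h'⟩) (h.ne i hi.1)
      · exact h.neg i hi
    · rw [hN i hiG] at hi
      by_cases hiK : i ∈ K
      · by_contra hcon
        apply hi
        refine Finset.mem_union_left _ (Finset.mem_sdiff.2 ⟨hiK, fun h' => hcon ?_⟩)
        exact (Finset.mem_filter.1 h').2
      · have hiE : i ∉ E := fun h' => hi (Finset.mem_union_right _ h')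
        refine h.fac.pos i ?_ hiG
        simp [hiK, hiE]
  refine ⟨key _ fun i _ => Iff.rfl, fun g hg => key _ fun i hi => ?_⟩
  have hig : i ≠ g := fun h' => hi (h' ▸ hg)
  simp [Finset.mem_symmDiff, hig]

/-- A facet with two positive elements of `K` gives a cell with many facets. -/
theorem rich_two {r : ℕ} {V : Submodule ℝ (ι → ℝ)} (hV : Unif r V) (hr : r ≤ Fintype.card ι)
    {K E C X G : Finset ι} (hN : Nb V K E C X) (hX : X.card + C.card = r)
    {f : ι → ℝ} (h : Good r V K E C G f) {a b : ι} (ha : a ∈ pp K f) (hb : b ∈ pp K f)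
    (hab : a ≠ b) : Rich V (2 * r - 1) := by
  have hT := h.tp hV hr
  have hXG : Disjoint G (X ∪ C) := by
    rw [Finset.disjoint_left]
    intro i hi hi'
    have e := h.disjK hi
    rcases Finset.mem_union.1 hi' with h' | h'
    · exact e.2 (hN.xsub h')
    · exact e.1 (hN.csub h')
  have hXC : Disjoint X C := by
    rw [Finset.disjoint_left]
    intro i hi hi'
    exact (Finset.disjoint_left.1 hN.disj) (hN.csub hi') (hN.xsub hi)
  refine ⟨_, G ∪ (X ∪ C), hT.1, ?_, ?_⟩
  · rw [Finset.card_union_of_disjoint hXG, Finset.card_union_of_disjoint hXC, hX]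
    have := h.fac.card
    omega
  · intro i hi
    rcases Finset.mem_union.1 hi with hi | hi
    · exact hT.2 i hi
    rcases Finset.mem_union.1 hi with hi | hi
    · exact hN.flip _ h.sub ⟨a, ha⟩ i hi
    · have hiK := hN.csub hi
      rw [symmDiff_K hiK (Finset.disjoint_left.1 hN.disj hiK)]
      refine hN.tp _ ?_ ?_
      · intro j hj
        rcases Finset.mem_symmDiff.1 hj with hj | hj
        · exact h.sub hj.1
        · rw [Finset.mem_singleton.1 hj.1]
          exact hi
      · by_cases hia : i = a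
        · exact ⟨b, Finset.mem_symmDiff.2 (Or.inl ⟨hb, by simpa [hia] using Ne.symm hab⟩)⟩
        · exact ⟨a, Finset.mem_symmDiff.2 (Or.inl ⟨ha, by simpa using Ne.symm hia⟩)⟩

/-- Two facets with the same positive element of `K` give a cell with many facets. -/
theorem rich_pair {r : ℕ} {V : Submodule ℝ (ι → ℝ)} (hV : Unif r V) (hr : r ≤ Fintype.card ι)
    {K E C X G G' : Finset ι} (hN : Nb V K E C X) (hX : X.card + C.card = r)
    {f f' : ι → ℝ} (h : Good r V K E C G f) (h' : Good r V K E C G' f') {a : ι}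
    (ha : pp K f = {a}) (ha' : pp K f' = {a}) (hGG : G ≠ G') : Rich V (2 * r - 1) := by
  have hT := h.tp hV hr
  have hT' := h'.tp hV hr
  rw [ha] at hT
  rw [ha'] at hT'
  have haC : a ∈ C := h.sub (by rw [ha]; exact Finset.mem_singleton_self a)
  have hXG : Disjoint (G ∪ G') (X ∪ C.erase a) := by
    rw [Finset.disjoint_left]
    intro i hi hi'
    have e : i ∉ K ∧ i ∉ E := by
      rcases Finset.mem_union.1 hi with hi | hi
      · exact h.disjK hi
      · exact h'.disjK hi
    rcases Finset.mem_union.1 hi' with h' | h'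
    · exact e.2 (hN.xsub h')
    · exact e.1 (hN.csub (Finset.mem_of_mem_erase h'))
  have hXC : Disjoint X (C.erase a) := by
    rw [Finset.disjoint_left]
    intro i hi hi'
    exact (Finset.disjoint_left.1 hN.disj) (hN.csub (Finset.mem_of_mem_erase hi')) (hN.xsub hi)
  have hcU : r ≤ (G ∪ G').card := by
    by_contra hcon
    have e1 := h.fac.card
    have e2 := h'.fac.card
    have e3 : G = G ∪ G' := Finset.eq_of_subset_of_card_le Finset.subset_union_left (by omega)
    have e4 : G' = G ∪ G' := Finset.eq_of_subset_of_card_le Finset.subset_union_right (by omega)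
    exact hGG (e3.trans e4.symm)
  refine ⟨_, (G ∪ G') ∪ (X ∪ C.erase a), hT.1, ?_, ?_⟩
  · rw [Finset.card_union_of_disjoint hXG, Finset.card_union_of_disjoint hXC,
      Finset.card_erase_of_mem haC]
    have : 0 < C.card := Finset.card_pos.2 ⟨a, haC⟩
    omega
  · intro i hi
    rcases Finset.mem_union.1 hi with hi | hi
    · rcases Finset.mem_union.1 hi with hi | hi
      · exact hT.2 i hi
      · exact hT'.2 i hi
    have haC' : ({a} : Finset ι) ⊆ C := Finset.singleton_subset_iff.2 haC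
    rcases Finset.mem_union.1 hi with hi | hi
    · exact hN.flip _ haC' (Finset.singleton_nonempty a) i hi
    · rw [Finset.mem_erase] at hi
      have hiK := hN.csub hi.2
      rw [symmDiff_K hiK (Finset.disjoint_left.1 hN.disj hiK)]
      refine hN.tp _ ?_ ?_
      · intro j hj
        rcases Finset.mem_symmDiff.1 hj with hj | hj
        · exact haC' hj.1
        · rw [Finset.mem_singleton.1 hj.1]
          exact hi.2
      · exact ⟨a, Finset.mem_symmDiff.2 (Or.inl ⟨by simp, by simpa using Ne.symm hi.1⟩)⟩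

/-- The positive part is not empty. -/
theorem pp_nonempty {r : ℕ} {V : Submodule ℝ (ι → ℝ)} (hV : Unif r V) {K : Finset ι}
    {u : ι → ι → ℝ} (hu : Chart r V K u) {f : ι → ℝ} (hf : f ∈ V) {i : ι} (hi : i ∉ K)
    (hfi : 0 < f i) : ∃ k ∈ K, 0 < f k := by
  by_contra hcon
  push Not at hcon
  have h1 := hV.expand hu.card hu.mem hu.zero (fun k hk => (hu.pos k hk).ne') hf i
  have h2 : ∑ k ∈ K, f k / u k k * u k i ≤ 0 := by
    refine Finset.sum_nonpos fun k hk => ?_
    refine mul_nonpos_of_nonpos_of_nonneg ?_ (hu.out k hk i hi).le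
    exact div_nonpos_of_nonpos_of_nonneg (hcon k hk) (hu.pos k hk).le
  linarith

/-- If there is no cell with `2 r - 1` facets, the hull is a simplex as soon as all its facets are
good or have just one positive element of `K`, belonging to one facet only. -/
theorem hull_simplex {r : ℕ} (hr : 3 ≤ r) {V : Submodule ℝ (ι → ℝ)} (hV : Unif r V)
    {K E C X : Finset ι} {u : ι → ι → ℝ} (hu : Chart r V K u) (hN : Nb V K E C X)
    (hX : X.card + C.card = r) (hL : r ≤ ((K ∪ E)ᶜ : Finset ι).card)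
    (hrich : ¬ Rich V (2 * r - 1))
    (hgood : ∀ (G : Finset ι) (f : ι → ℝ), Fac r V (K ∪ E)ᶜ G f → Good r V K E C G f ∨
      ∃ c ∈ K, pp K f = {c} ∧ ∀ (G' : Finset ι) (f' : ι → ℝ), Fac r V (K ∪ E)ᶜ G' f' →
        0 < f' c → G = G') :
    ∃ (l : ι → ι) (Y : ι → ι → ℝ), (∀ k ∈ K, l k ∈ (K ∪ E)ᶜ) ∧
      (∀ k ∈ K, ∀ j ∈ K, l k = l j → k = j) ∧
      (∀ k ∈ K, Fac r V (K ∪ E)ᶜ ((K.erase k).image l) (Y k)) ∧
      (∀ k ∈ K, 0 < Y k k) ∧ ∀ k ∈ K, ∀ j ∈ K, j ≠ k → Y k j < 0 := by
  have hn : r ≤ Fintype.card ι := hL.trans (Finset.card_le_univ _)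
  -- every facet functional is non-zero
  have hfne : ∀ (G : Finset ι) (f : ι → ℝ), Fac r V (K ∪ E)ᶜ G f →
      (∃ i ∈ (K ∪ E)ᶜ, 0 < f i) ∧ ∀ i ∈ K, f i ≠ 0 := by
    intro G f hF
    obtain ⟨i, hi⟩ : ∃ i, i ∈ (K ∪ E)ᶜ \ G := by
      refine Finset.card_pos.1 ?_
      rw [Finset.card_sdiff_of_subset hF.sub]
      have := hF.card
      omega
    rw [Finset.mem_sdiff] at hi
    have hp := hF.pos i hi.1 hi.2
    refine ⟨⟨i, hi.1, hp⟩, fun k hk => hF.ne hV ?_ ?_⟩
    · rintro rfl
      simp at hp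
    · intro hkG
      have := hF.sub hkG
      simp [hk] at this
  refine simplex hr hV hu.card hL ?_ ?_ ?_
  · intro k hk
    refine exists_fac (by omega) hV hL (k := k) (u := u k) (by simp [hk]) (hu.mem k hk) ?_
      (hu.pos k hk)
    intro i hi
    exact hu.out k hk i (by
      simp only [Finset.mem_compl, Finset.mem_union, not_or] at hi
      exact hi.1)
  · intro G f hF
    obtain ⟨⟨i, hi, hfi⟩, hne⟩ := hfne G f hF
    obtain ⟨k, hk, hfk⟩ := pp_nonempty hV hu hF.mem (i := i) (by
      simp only [Finset.mem_compl, Finset.mem_union, not_or] at hi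
      exact hi.1) hfi
    refine ⟨k, hk, hfk, fun j hj hjk => ?_⟩
    refine lt_of_le_of_ne (not_lt.1 fun hfj => ?_) (hne j hj)
    have hjp : j ∈ pp K f := Finset.mem_filter.2 ⟨hj, hfj⟩
    have hkp : k ∈ pp K f := Finset.mem_filter.2 ⟨hk, hfk⟩
    rcases hgood G f hF with hg | ⟨c, hc, hpc, -⟩
    · exact hrich (rich_two hV hn hN hX hg hjp hkp hjk)
    · rw [hpc, Finset.mem_singleton] at hjp hkp
      exact hjk (hjp.trans hkp.symm)
  · intro G f G' f' k hk hF hF' hfk hfk'
    by_contra hGG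
    have hpk : ∀ (G : Finset ι) (f : ι → ℝ), Fac r V (K ∪ E)ᶜ G f → Good r V K E C G f →
        0 < f k → pp K f = {k} := by
      intro G f hF hg hfk
      refine Finset.eq_singleton_iff_unique_mem.2 ⟨Finset.mem_filter.2 ⟨hk, hfk⟩, ?_⟩
      intro j hj
      by_contra hjk
      exact hrich (rich_two hV hn hN hX hg hj (Finset.mem_filter.2 ⟨hk, hfk⟩) hjk)
    rcases hgood G f hF with hg | ⟨c, hc, hpc, huc⟩
    · rcases hgood G' f' hF' with hg' | ⟨c, hc, hpc, huc⟩
      · exact hrich (rich_pair hV hn hN hX hg hg' (hpk G f hF hg hfk) (hpk G' f' hF' hg' hfk') hGG)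
      · have hkc : k ∈ pp K f' := Finset.mem_filter.2 ⟨hk, hfk'⟩
        rw [hpc, Finset.mem_singleton] at hkc
        subst hkc
        exact hGG (huc G f hF hfk).symm
    · have hkc : k ∈ pp K f := Finset.mem_filter.2 ⟨hk, hfk⟩
      rw [hpc, Finset.mem_singleton] at hkc
      subst hkc
      exact hGG (huc G' f' hF' hfk')

end Pool.Agent.H97.Mcm2
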