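import Mathlib
import Pool.Agent.H97.Mcm2.Step

/-!
The invariant of the peeling and one step of it.
-/

set_option autoImplicit false

namespace Pool.Agent.H97.Mcm2

open Finset Pool.Agent.H97.Mcm

variable {ι : Type*} [Fintype ι] [DecidableEq ι]

omit [Fintype ι] in
/-- Expansion in a basis dual to `l`. -/
theorem expand_l {r : ℕ} {V : Submodule ℝ (ι → ℝ)} (hV : Unif r V) {K : Finset ι}
    (hK : K.card = r) {l : ι → ι} (hl : ∀ k ∈ K, ∀ j ∈ K, l k = l j → k = j)
    {Y : ι → ι → ℝ} (hY : ∀ k ∈ K, Y k ∈ V) (h0 : ∀ k ∈ K, ∀ j ∈ K, j ≠ k → Y k (l j) = 0)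
    (h1 : ∀ k ∈ K, Y k (l k) ≠ 0) {f : ι → ℝ} (hf : f ∈ V) (i : ι) :
    f i = ∑ k ∈ K, f (l k) / Y k (l k) * Y k i := by
  have hc : (K.image l).card = r := by
    rw [Finset.card_image_of_injOn, hK]
    intro a ha b hb hab
    exact hl a ha b hb hab
  have h2 : f - ∑ k ∈ K, (f (l k) / Y k (l k)) • Y k = 0 := by
    refine hV.uq (K.image l) hc _ (V.sub_mem hf (V.sum_mem fun k hk => V.smul_mem _ (hY k hk))) ?_
    intro i hi
    obtain ⟨j, hj, rfl⟩ := Finset.mem_image.1 hi
    simp only [Pi.sub_apply, Finset.sum_apply, Pi.smul_apply, smul_eq_mul]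
    rw [Finset.sum_eq_single j]
    · have := h1 j hj
      field_simp
      ring
    · intro k hk hkj
      rw [h0 k hk j hj hkj.symm, mul_zero]
    · intro h; exact absurd hj h
  have := congrFun h2 i
  simp only [Pi.sub_apply, Finset.sum_apply, Pi.smul_apply, smul_eq_mul, Pi.zero_apply] at this
  linarith

/-- The hull of the elements outside `K ∪ D` is the simplex `l k`, `k ∈ K`, the facet opposite to
`l k` has exactly `k` on its positive side, and the elements of `D` lie beyond all facets but the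
one opposite to `l c`. -/
structure Mrel (r : ℕ) (V : Submodule ℝ (ι → ℝ)) (K D : Finset ι) (c : ι) (l : ι → ι)
    (Y : ι → ι → ℝ) : Prop where
  disj : Disjoint K D
  mem : ∀ k ∈ K, l k ∈ (K ∪ D)ᶜ
  inj : ∀ k ∈ K, ∀ j ∈ K, l k = l j → k = j
  fac : ∀ k ∈ K, Fac r V (K ∪ D)ᶜ ((K.erase k).image l) (Y k)
  pos : ∀ k ∈ K, 0 < Y k k
  neg : ∀ k ∈ K, ∀ j ∈ K, j ≠ k → Y k j < 0
  dpos : ∀ d ∈ D, 0 < Y c d
  dneg : ∀ k ∈ K, k ≠ c → ∀ d ∈ D, Y k d < 0

section

variable {r : ℕ} {V : Submodule ℝ (ι → ℝ)} {K D : Finset ι} {c : ι} {l : ι → ι}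
  {Y u : ι → ι → ℝ}

theorem Mrel.lK (h : Mrel r V K D c l Y) {k : ι} (hk : k ∈ K) : l k ∉ K := by
  have := h.mem k hk
  simp only [Finset.mem_compl, Finset.mem_union, not_or] at this
  exact this.1

theorem Mrel.lD (h : Mrel r V K D c l Y) {k : ι} (hk : k ∈ K) : l k ∉ D := by
  have := h.mem k hk
  simp only [Finset.mem_compl, Finset.mem_union, not_or] at this
  exact this.2

theorem Mrel.zero (h : Mrel r V K D c l Y) {k j : ι} (hk : k ∈ K) (hj : j ∈ K) (hjk : j ≠ k) :
    Y k (l j) = 0 :=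
  (h.fac k hk).zero _ (Finset.mem_image.2 ⟨j, Finset.mem_erase.2 ⟨hjk, hj⟩, rfl⟩)

theorem Mrel.one (h : Mrel r V K D c l Y) {k : ι} (hk : k ∈ K) : 0 < Y k (l k) := by
  refine (h.fac k hk).pos _ (h.mem k hk) fun h' => ?_
  obtain ⟨j, hj, hj'⟩ := Finset.mem_image.1 h'
  rw [Finset.mem_erase] at hj
  exact hj.1 (h.inj j hj.2 k hk hj')

theorem Mrel.inner (h : Mrel r V K D c l Y) {k i : ι} (hk : k ∈ K) (hi : i ∈ (K ∪ D)ᶜ)
    (hil : ∀ j ∈ K, i ≠ l j) : 0 < Y k i := by
  refine (h.fac k hk).pos _ hi fun h' => ?_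
  obtain ⟨j, hj, hj'⟩ := Finset.mem_image.1 h'
  rw [Finset.mem_erase] at hj
  exact hil j hj.2 hj'.symm

theorem Mrel.expand (h : Mrel r V K D c l Y) (hV : Unif r V) (hK : K.card = r) {f : ι → ℝ}
    (hf : f ∈ V) (i : ι) : f i = ∑ k ∈ K, f (l k) / Y k (l k) * Y k i :=
  expand_l hV hK h.inj (fun k hk => (h.fac k hk).mem)
    (fun _ hk _ hj hjk => h.zero hk hj hjk) (fun _ hk => (h.one hk).ne') hf i

/-- The cells of the invariant. -/
theorem Mrel.tp (h : Mrel r V K D c l Y) (hV : Unif r V) (hu : Chart r V K u) (hc : c ∈ K)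
    {P : Finset ι} (hP : P ⊆ K.erase c) (hne : P.Nonempty) {E : Finset ι} (hE : E ⊆ {l c}) :
    Tp V ((K \ P) ∪ (E ∪ D)) := by
  have hPK : P ⊆ K := fun i hi => Finset.mem_of_mem_erase (hP hi)
  have hPc : ∀ i ∈ P, i ≠ c := fun i hi => (Finset.mem_erase.1 (hP hi)).1
  let w : ι → ℝ := ∑ k ∈ P, u k
  have hwV : w ∈ V := V.sum_mem fun k hk => hu.mem k (hPK hk)
  have hwout : ∀ i, i ∉ K → 0 < w i := by
    intro i hi
    simp only [w, Finset.sum_apply]
    exact Finset.sum_pos (fun k hk => hu.out k (hPK hk) i hi) hne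
  have hwin : ∀ i ∈ P, 0 < w i := by
    intro i hi
    simp only [w, Finset.sum_apply]
    rw [Finset.sum_eq_single i]
    · exact hu.pos i (hPK hi)
    · intro k hk hki
      exact hu.zero k (hPK hk) i (hPK hi) (Ne.symm hki)
    · intro h'
      exact absurd hi h'
  have hco : ∀ k ∈ K, 0 < w (l k) / Y k (l k) := fun k hk =>
    div_pos (hwout _ (h.lK hk)) (h.one hk)
  let v : ι → ℝ := ∑ k ∈ P, (w (l k) / Y k (l k)) • Y k
  have hvV : v ∈ V := V.sum_mem fun k hk => V.smul_mem _ (h.fac k (hPK hk)).mem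
  have hv : ∀ i, v i = ∑ k ∈ P, w (l k) / Y k (l k) * Y k i := by
    intro i
    simp only [v, Finset.sum_apply, Pi.smul_apply, smul_eq_mul]
  let σ : ℝ := if l c ∈ E then -1 else 1
  let z : ι → ℝ := ∑ k ∈ (K.erase c) \ P, Y k + σ • Y c
  have hzV : z ∈ V := V.add_mem (V.sum_mem fun k hk => (h.fac k
    (Finset.mem_of_mem_erase (Finset.mem_sdiff.1 hk).1)).mem) (V.smul_mem _ (h.fac c hc).mem)
  have hz : ∀ i, z i = ∑ k ∈ (K.erase c) \ P, Y k i + σ * Y c i := by
    intro i
    simp only [z, Finset.sum_apply, Pi.smul_apply, smul_eq_mul, Pi.add_apply]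
  -- values of `v`
  have hvK : ∀ i ∈ K, i ∉ P → v i < 0 := by
    intro i hi hiP
    rw [hv]
    refine Finset.sum_neg (fun k hk => ?_) hne
    refine mul_neg_of_pos_of_neg (hco k (hPK hk)) (h.neg k (hPK hk) i hi ?_)
    rintro rfl
    exact hiP hk
  have hvP : ∀ i ∈ P, 0 < v i := by
    intro i hi
    have e1 := h.expand hV hu.card hwV i
    rw [← Finset.sum_sdiff hPK, ← hv] at e1
    have e2 : ∑ k ∈ K \ P, w (l k) / Y k (l k) * Y k i ≤ 0 := by
      refine Finset.sum_nonpos fun k hk => ?_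
      rw [Finset.mem_sdiff] at hk
      refine mul_nonpos_of_nonneg_of_nonpos (hco k hk.1).le (h.neg k hk.1 i (hPK hi) ?_).le
      rintro rfl
      exact hk.2 hi
    have e3 := hwin i hi
    linarith
  have hvD : ∀ i ∈ D, v i < 0 := by
    intro i hi
    rw [hv]
    refine Finset.sum_neg (fun k hk => ?_) hne
    exact mul_neg_of_pos_of_neg (hco k (hPK hk)) (h.dneg k (hPK hk) (hPc k hk) i hi)
  have hvl : ∀ k ∈ K, v (l k) = if k ∈ P then w (l k) else 0 := by
    intro k hk
    rw [hv]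
    split_ifs with hkP
    · rw [Finset.sum_eq_single k]
      · have := h.one hk
        field_simp
      · intro j hj hjk
        rw [h.zero (hPK hj) hk (Ne.symm hjk), mul_zero]
      · intro h'
        exact absurd hkP h'
    · refine Finset.sum_eq_zero fun j hj => ?_
      rw [h.zero (hPK hj) hk (fun h' => hkP (h' ▸ hj)), mul_zero]
  have hvin : ∀ i ∈ (K ∪ D)ᶜ, (∀ j ∈ K, i ≠ l j) → 0 < v i := by
    intro i hi hil
    rw [hv]
    exact Finset.sum_pos (fun k hk => mul_pos (hco k (hPK hk)) (h.inner (hPK hk) hi hil)) hne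
  -- values of `z`
  have hzl : ∀ k ∈ K, k ∉ P → z (l k) = if k = c then σ * Y c (l c) else Y k (l k) := by
    intro k hk hkP
    rw [hz]
    split_ifs with hkc
    · subst hkc
      rw [Finset.sum_eq_zero, zero_add]
      intro j hj
      rw [Finset.mem_sdiff, Finset.mem_erase] at hj
      exact h.zero hj.1.2 hk (Ne.symm hj.1.1)
    · rw [h.zero hc hk hkc, mul_zero, add_zero, Finset.sum_eq_single k]
      · intro j hj hjk
        rw [Finset.mem_sdiff, Finset.mem_erase] at hj
        exact h.zero hj.1.2 hk (Ne.symm hjk)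
      · intro h'
        exact absurd (Finset.mem_sdiff.2 ⟨Finset.mem_erase.2 ⟨hkc, hk⟩, hkP⟩) h'
  have hEl : ∀ i ∈ E, i = l c := fun i hi => Finset.mem_singleton.1 (hE hi)
  refine Tp.pert hvV hzV (fun i hi => ?_) fun i hi => ?_
  · rcases Finset.mem_union.1 hi with hi | hi
    · rw [Finset.mem_sdiff] at hi
      exact Or.inl (hvK i hi.1 hi.2)
    · rcases Finset.mem_union.1 hi with hi | hi
      · right
        have e := hEl i hi
        subst e
        have hcP : c ∉ P := fun h' => hPc c h' rfl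
        rw [hvl c hc, if_neg hcP, hzl c hc hcP, if_pos rfl]
        refine ⟨rfl, ?_⟩
        simp only [σ, hi, if_true]
        have := h.one hc
        linarith
      · exact Or.inl (hvD i hi)
  · simp only [Finset.mem_union, Finset.mem_sdiff, not_or, not_and, not_not] at hi
    obtain ⟨hi1, hi2, hi3⟩ := hi
    by_cases hiK : i ∈ K
    · exact Or.inl (hvP i (hi1 hiK))
    · by_cases hil : ∃ j ∈ K, i = l j
      · obtain ⟨j, hj, rfl⟩ := hil
        by_cases hjP : j ∈ P
        · left
          rw [hvl j hj, if_pos hjP]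
          exact hwout _ (h.lK hj)
        · right
          rw [hvl j hj, if_neg hjP, hzl j hj hjP]
          refine ⟨rfl, ?_⟩
          split_ifs with hjc
          · subst hjc
            simp only [σ, hi2, if_false, one_mul]
            exact h.one hj
          · exact h.one hj
      · push Not at hil
        exact Or.inl (hvin i (by simp [hiK, hi3]) hil)

theorem Mrel.nb (h : Mrel r V K D c l Y) (hV : Unif r V) (hu : Chart r V K u) (hc : c ∈ K) :
    Nb V K (insert (l c) D) (K.erase c) {l c} := by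
  have e0 : insert (l c) D = {l c} ∪ D := Finset.insert_eq _ _
  constructor
  · rw [Finset.disjoint_left]
    intro i hi hi'
    rcases Finset.mem_insert.1 hi' with rfl | hi'
    · exact h.lK hc hi
    · exact Finset.disjoint_left.1 h.disj hi hi'
  · exact Finset.erase_subset _ _
  · simp
  · intro P hP hne
    rw [e0]
    exact h.tp hV hu hc hP hne (Finset.Subset.refl _)
  · intro P hP hne x hx
    rw [Finset.mem_singleton] at hx
    subst hx
    have e : symmDiff ((K \ P) ∪ insert (l c) D) {l c} = (K \ P) ∪ (∅ ∪ D) := by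
      ext i
      simp only [Finset.mem_symmDiff, Finset.mem_union, Finset.mem_sdiff, Finset.mem_singleton,
        Finset.mem_insert, Finset.notMem_empty, false_or]
      by_cases hi : i = l c
      · subst hi
        have e1 := h.lK hc
        have e2 := h.lD hc
        simp [e1, e2]
      · simp only [hi]
        tauto
    rw [e]
    exact h.tp hV hu hc hP hne (Finset.empty_subset _)

end

end Pool.Agent.H97.Mcm2
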