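import Mathlib
import Pool.Agent.H97.Mcm2.Peel

/-!
One step of the peeling, and all steps.
-/

set_option autoImplicit false

namespace Pool.Agent.H97.Mcm2

open Finset Pool.Agent.H97.Mcm

variable {ι : Type*} [Fintype ι] [DecidableEq ι]

variable {r : ℕ} {V : Submodule ℝ (ι → ℝ)} {K D : Finset ι} {c : ι} {l : ι → ι}
  {Y u : ι → ι → ℝ}

theorem Mrel.congr (h : Mrel r V K D c l Y) {l' : ι → ι} (hl : ∀ k ∈ K, l k = l' k) :
    Mrel r V K D c l' Y := by
  have himg : ∀ k, (K.erase k).image l = (K.erase k).image l' := by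
    intro k
    refine Finset.image_congr fun i hi => hl i ?_
    exact Finset.mem_of_mem_erase (Finset.mem_coe.1 hi)
  refine ⟨h.disj, fun k hk => ?_, fun k hk j hj hkj => ?_, fun k hk => ?_, h.pos, h.neg, h.dpos,
    h.dneg⟩
  · rw [← hl k hk]
    exact h.mem k hk
  · rw [← hl k hk, ← hl j hj] at hkj
    exact h.inj k hk j hj hkj
  · rw [← himg]
    exact h.fac k hk

/-- Facets other than the one opposite to `l c`: the removed elements lie beyond them. -/
theorem Mrel.beyond (h : Mrel r V K D c l Y) (hV : Unif r V) (hK : K.card = r) (hc : c ∈ K)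
    {G : Finset ι} {f : ι → ℝ} (hF : Fac r V (K ∪ insert (l c) D)ᶜ G f)
    (hf0 : f ≠ 0) (hG : G ≠ (K.erase c).image l) :
    f (l c) < 0 ∧ f c < 0 ∧ ∀ d ∈ D, f d < 0 := by
  have hmem : ∀ i, i ∈ (K ∪ insert (l c) D)ᶜ ↔ (i ∉ K ∧ i ≠ l c ∧ i ∉ D) := by
    intro i
    simp only [Finset.mem_compl, Finset.mem_union, Finset.mem_insert, not_or]
  have hfl : ∀ k ∈ K, k ≠ c → 0 ≤ f (l k) := by
    intro k hk hkc
    by_cases hkG : l k ∈ G
    · rw [hF.zero _ hkG]
    · refine (hF.pos _ ((hmem _).2 ⟨h.lK hk, fun h' => hkc (h.inj k hk c hc h'), h.lD hk⟩) hkG).le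
  have hcA : ((K.erase c).image l).card + 1 = r := (h.fac c hc).card
  have hlc : f (l c) < 0 := by
    by_contra hcon
    push Not at hcon
    have hall : ∀ k ∈ K, 0 ≤ f (l k) := by
      intro k hk
      by_cases hkc : k = c
      · rw [hkc]; exact hcon
      · exact hfl k hk hkc
    obtain ⟨g, hgG, hgA⟩ : ∃ g ∈ G, g ∉ (K.erase c).image l := by
      by_contra hcon2
      push Not at hcon2
      exact hG (Finset.eq_of_subset_of_card_le hcon2 (by have := hF.card; omega))
    have hg := (hmem g).1 (hF.sub hgG)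
    have hgin : ∀ k ∈ K, 0 < Y k g := by
      intro k hk
      refine h.inner hk (by simp [hg.1, hg.2.2]) fun j hj hgj => ?_
      by_cases hjc : j = c
      · exact hg.2.1 (by rw [hgj, hjc])
      · exact hgA (Finset.mem_image.2 ⟨j, Finset.mem_erase.2 ⟨hjc, hj⟩, hgj.symm⟩)
    have e1 := h.expand hV hK hF.mem g
    rw [hF.zero g hgG] at e1
    have e2 := (Finset.sum_eq_zero_iff_of_nonneg (fun k hk => mul_nonneg
      (div_nonneg (hall k hk) (h.one hk).le) (hgin k hk).le)).1 e1.symm
    apply hf0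
    funext i
    rw [h.expand hV hK hF.mem i]
    refine Finset.sum_eq_zero fun k hk => ?_
    rcases mul_eq_zero.1 (e2 k hk) with e3 | e3
    · rw [e3, zero_mul]
    · exact absurd e3 (hgin k hk).ne'
  have key : ∀ i, 0 < Y c i → (∀ k ∈ K, k ≠ c → Y k i < 0) → f i < 0 := by
    intro i h1 h2
    rw [h.expand hV hK hF.mem i, ← Finset.add_sum_erase K _ hc]
    have e1 : f (l c) / Y c (l c) * Y c i < 0 :=
      mul_neg_of_neg_of_pos (div_neg_of_neg_of_pos hlc (h.one hc)) h1
    have e2 : ∑ k ∈ K.erase c, f (l k) / Y k (l k) * Y k i ≤ 0 := by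
      refine Finset.sum_nonpos fun k hk => ?_
      rw [Finset.mem_erase] at hk
      exact mul_nonpos_of_nonneg_of_nonpos (div_nonneg (hfl k hk.2 hk.1) (h.one hk.2).le)
        (h2 k hk.2 hk.1).le
    linarith
  exact ⟨hlc, key c (h.pos c hc) fun k hk hkc => h.neg k hk c hc (Ne.symm hkc),
    fun d hd => key d (h.dpos d hd) fun k hk hkc => h.dneg k hk hkc d hd⟩

/-- A facet functional of the facet opposite to `l c` is a positive multiple of `Y c`. -/
theorem Mrel.parallel (h : Mrel r V K D c l Y) (hV : Unif r V) (hc : c ∈ K) {m : ι}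
    (hm : m ∈ (K ∪ D)ᶜ) (hml : ∀ k ∈ K, m ≠ l k) {f : ι → ℝ}
    (hF : Fac r V (K ∪ insert (l c) D)ᶜ ((K.erase c).image l) f) :
    ∃ a : ℝ, 0 < a ∧ ∀ i, f i = a * Y c i := by
  have hmA : m ∉ (K.erase c).image l := by
    intro h'
    obtain ⟨j, hj, hj'⟩ := Finset.mem_image.1 h'
    exact hml j (Finset.mem_of_mem_erase hj) hj'.symm
  have hmL : m ∈ (K ∪ insert (l c) D)ᶜ := by
    simp only [Finset.mem_compl, Finset.mem_union, not_or, Finset.mem_insert] at hm ⊢
    exact ⟨hm.1, hml c hc, hm.2⟩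
  have h1 : 0 < f m := hF.pos m hmL hmA
  have h2 : 0 < Y c m := h.inner hc hm hml
  have h3 : f - (f m / Y c m) • Y c = 0 := by
    refine hV.uq (insert m ((K.erase c).image l)) ?_ _
      (V.sub_mem hF.mem (V.smul_mem _ (h.fac c hc).mem)) ?_
    · rw [Finset.card_insert_of_notMem hmA]
      exact hF.card
    · intro i hi
      simp only [Pi.sub_apply, Pi.smul_apply, smul_eq_mul]
      rcases Finset.mem_insert.1 hi with rfl | hi
      · rw [div_mul_cancel₀ _ h2.ne', sub_self]
      · rw [hF.zero i hi, (h.fac c hc).zero i hi, mul_zero, sub_zero]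
  refine ⟨f m / Y c m, div_pos h1 h2, fun i => ?_⟩
  have := congrFun h3 i
  simp only [Pi.sub_apply, Pi.smul_apply, smul_eq_mul, Pi.zero_apply] at this
  linarith

/-- One step. -/
theorem Mrel.step (h : Mrel r V K D c l Y) (hr : 3 ≤ r) (hV : Unif r V) (hu : Chart r V K u)
    (hrich : ¬ Rich V (2 * r - 1)) (hc : c ∈ K) {m : ι}
    (hm : m ∈ (K ∪ D)ᶜ) (hml : ∀ k ∈ K, m ≠ l k) :
    ∃ (a : ι) (Y' : ι → ι → ℝ), Mrel r V K (insert (l c) D) c (Function.update l c a) Y' := by
  have hmem : ∀ i, i ∈ (K ∪ insert (l c) D)ᶜ ↔ (i ∉ K ∧ i ≠ l c ∧ i ∉ D) := by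
    intro i
    simp only [Finset.mem_compl, Finset.mem_union, Finset.mem_insert, not_or]
  have hmA : m ∉ (K.erase c).image l := by
    intro h'
    obtain ⟨j, hj, hj'⟩ := Finset.mem_image.1 h'
    exact hml j (Finset.mem_of_mem_erase hj) hj'.symm
  have hmL : m ∈ (K ∪ insert (l c) D)ᶜ := by
    rw [hmem]
    simp only [Finset.mem_compl, Finset.mem_union, not_or] at hm
    exact ⟨hm.1, hml c hc, hm.2⟩
  have hAL : (K.erase c).image l ⊆ (K ∪ insert (l c) D)ᶜ := by
    intro i hi
    obtain ⟨j, hj, rfl⟩ := Finset.mem_image.1 hi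
    rw [Finset.mem_erase] at hj
    exact (hmem _).2 ⟨h.lK hj.2, fun h' => hj.1 (h.inj j hj.2 c hc h'), h.lD hj.2⟩
  have hcA : ((K.erase c).image l).card + 1 = r := (h.fac c hc).card
  have hL : r ≤ ((K ∪ insert (l c) D)ᶜ : Finset ι).card := by
    have h1 : insert m ((K.erase c).image l) ⊆ (K ∪ insert (l c) D)ᶜ :=
      Finset.insert_subset hmL hAL
    have h2 := Finset.card_le_card h1
    rw [Finset.card_insert_of_notMem hmA] at h2
    omega
  have hnb := h.nb hV hu hc
  -- facets
  have hfne : ∀ (G : Finset ι) (f : ι → ℝ), Fac r V (K ∪ insert (l c) D)ᶜ G f →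
      f ≠ 0 ∧ ∀ i ∈ K, f i ≠ 0 := by
    intro G f hF
    obtain ⟨i, hi⟩ : ∃ i, i ∈ (K ∪ insert (l c) D)ᶜ \ G := by
      refine Finset.card_pos.1 ?_
      rw [Finset.card_sdiff_of_subset hF.sub]
      have := hF.card
      omega
    rw [Finset.mem_sdiff] at hi
    have hp := hF.pos i hi.1 hi.2
    have hf0 : f ≠ 0 := by
      rintro rfl
      simp at hp
    refine ⟨hf0, fun k hk => hF.ne hV hf0 ?_⟩
    intro hkG
    have := (hmem k).1 (hF.sub hkG)
    exact this.1 hk
  have hX : ({l c} : Finset ι).card + (K.erase c).card = r := by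
    rw [Finset.card_singleton, Finset.card_erase_of_mem hc, hu.card]
    omega
  obtain ⟨l', Y', hl'L, hl'inj, hF', hpos', hneg'⟩ := hull_simplex hr hV hu hnb hX hL hrich (by
    intro G f hF
    have hne := hfne G f hF
    by_cases hG : G = (K.erase c).image l
    · right
      subst hG
      obtain ⟨a, ha, hfa⟩ := h.parallel hV hc hm hml hF
      refine ⟨c, hc, ?_, ?_⟩
      · refine Finset.eq_singleton_iff_unique_mem.2 ⟨Finset.mem_filter.2 ⟨hc, ?_⟩, ?_⟩
        · rw [hfa]
          exact mul_pos ha (h.pos c hc)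
        · intro j hj
          rw [pp, Finset.mem_filter] at hj
          by_contra hjc
          have := mul_neg_of_pos_of_neg ha (h.neg c hc j hj.1 hjc)
          rw [← hfa] at this
          linarith [hj.2]
      · intro G' f' hF' hf'c
        by_contra hGG
        have := (h.beyond hV hu.card hc hF' (hfne G' f' hF').1 (Ne.symm hGG)).2.1
        linarith
    · left
      have hb := h.beyond hV hu.card hc hF hne.1 hG
      refine ⟨hF, ?_, hne.2, ?_⟩
      · intro i hi
        rcases Finset.mem_insert.1 hi with rfl | hi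
        · exact hb.1
        · exact hb.2.2 i hi
      · intro i hi
        rw [pp, Finset.mem_filter] at hi
        refine Finset.mem_erase.2 ⟨?_, hi.1⟩
        rintro rfl
        linarith [hb.2.1, hi.2])
  -- the facet of `c`
  have hA : (K.erase c).image l' = (K.erase c).image l := by
    by_contra hne
    have := (h.beyond hV hu.card hc (hF' c hc) (hfne _ _ (hF' c hc)).1 hne).2.1
    linarith [hpos' c hc]
  have hb : ∀ k ∈ K, k ≠ c → Y' k (l c) < 0 ∧ ∀ d ∈ D, Y' k d < 0 := by
    intro k hk hkc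
    have hne : (K.erase k).image l' ≠ (K.erase c).image l := by
      intro heq
      rw [← hA] at heq
      have e1 : l' c ∈ (K.erase k).image l' :=
        Finset.mem_image.2 ⟨c, Finset.mem_erase.2 ⟨Ne.symm hkc, hc⟩, rfl⟩
      rw [heq] at e1
      obtain ⟨j, hj, hj'⟩ := Finset.mem_image.1 e1
      rw [Finset.mem_erase] at hj
      exact hj.1 (hl'inj j hj.2 c hc hj')
    have := h.beyond hV hu.card hc (hF' k hk) (hfne _ _ (hF' k hk)).1 hne
    exact ⟨this.1, this.2.2⟩
  have hl'one : ∀ k ∈ K, 0 < Y' k (l' k) := by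
    intro k hk
    refine (hF' k hk).pos _ (hl'L k hk) fun h' => ?_
    obtain ⟨j, hj, hj'⟩ := Finset.mem_image.1 h'
    rw [Finset.mem_erase] at hj
    exact hj.1 (hl'inj j hj.2 k hk hj')
  have hl'zero : ∀ k ∈ K, ∀ j ∈ K, j ≠ k → Y' k (l' j) = 0 := fun k hk j hj hjk =>
    (hF' k hk).zero _ (Finset.mem_image.2 ⟨j, Finset.mem_erase.2 ⟨hjk, hj⟩, rfl⟩)
  -- `l'` agrees with `l` off `c`
  have hll : ∀ j ∈ K, j ≠ c → l' j = l j := by
    intro j hj hjc
    have e1 : l j ∈ (K.erase c).image l' := by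
      rw [hA]
      exact Finset.mem_image.2 ⟨j, Finset.mem_erase.2 ⟨hjc, hj⟩, rfl⟩
    obtain ⟨j', hj', hj'l⟩ := Finset.mem_image.1 e1
    rw [Finset.mem_erase] at hj'
    have e2 : ∀ k ∈ K, k ≠ c → k ≠ j → Y' j' (l k) = 0 := by
      intro k hk hkc hkj
      have e3 : l k ∈ (K.erase c).image l' := by
        rw [hA]
        exact Finset.mem_image.2 ⟨k, Finset.mem_erase.2 ⟨hkc, hk⟩, rfl⟩
      obtain ⟨k', hk', hk'l⟩ := Finset.mem_image.1 e3
      rw [Finset.mem_erase] at hk'
      rw [← hk'l]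
      refine hl'zero j' hj'.2 k' hk'.2 ?_
      rintro rfl
      rw [hj'l] at hk'l
      exact hkj (h.inj k hk j hj hk'l.symm)
    have e3 : 0 < Y' j' j := by
      rw [h.expand hV hu.card (hF' j' hj'.2).mem j, ← Finset.add_sum_erase K _ hc,
        ← Finset.add_sum_erase (K.erase c) _ (Finset.mem_erase.2 ⟨hjc, hj⟩),
        Finset.sum_eq_zero, add_zero]
      · have e4 : 0 < Y' j' (l c) / Y c (l c) * Y c j :=
          mul_pos_of_neg_of_neg (div_neg_of_neg_of_pos (hb j' hj'.2 hj'.1).1 (h.one hc))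
            (h.neg c hc j hj hjc)
        have e5 : 0 < Y' j' (l j) / Y j (l j) * Y j j := by
          refine mul_pos (div_pos ?_ (h.one hj)) (h.pos j hj)
          rw [← hj'l]
          exact hl'one j' hj'.2
        linarith
      · intro k hk
        rw [Finset.mem_erase, Finset.mem_erase] at hk
        rw [e2 k hk.2.2 hk.2.1 hk.1, zero_div, zero_mul]
    have e4 : j = j' := by
      by_contra hne
      have := hneg' j' hj'.2 j hj hne
      linarith
    rw [← hj'l, ← e4]
  have hYc : ∃ a : ℝ, 0 < a ∧ ∀ i, Y' c i = a * Y c i := by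
    refine h.parallel hV hc hm hml ?_
    rw [← hA]
    exact hF' c hc
  obtain ⟨a, ha, hYc⟩ := hYc
  have hM : Mrel r V K (insert (l c) D) c l' Y' := by
    refine ⟨hnb.disj, hl'L, hl'inj, hF', hpos', hneg', ?_, ?_⟩
    · intro d hd
      rw [hYc]
      refine mul_pos ha ?_
      rcases Finset.mem_insert.1 hd with rfl | hd
      · exact h.one hc
      · exact h.dpos d hd
    · intro k hk hkc d hd
      rcases Finset.mem_insert.1 hd with rfl | hd
      · exact (hb k hk hkc).1
      · exact (hb k hk hkc).2 d hd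
  refine ⟨l' c, Y', hM.congr fun k hk => ?_⟩
  by_cases hkc : k = c
  · rw [hkc, Function.update_self]
  · rw [Function.update_of_ne hkc]
    exact hll k hk hkc

/-- All steps: every element outside becomes the vertex opposite to the facet of `c`. -/
theorem chain (hr : 3 ≤ r) (hV : Unif r V) (hu : Chart r V K u)
    (hrich : ¬ Rich V (2 * r - 1)) (hc : c ∈ K) {m : ι} : ∀ (n : ℕ) (D : Finset ι) (l : ι → ι)
    (Y : ι → ι → ℝ), Mrel r V K D c l Y → ((K ∪ D)ᶜ : Finset ι).card ≤ n → m ∈ (K ∪ D)ᶜ →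
    (∀ k ∈ K, m ≠ l k) → ∃ (D' : Finset ι) (Y' : ι → ι → ℝ),
      Mrel r V K D' c (Function.update l c m) Y' := by
  intro n
  induction n with
  | zero =>
    intro D l Y h hn hm hml
    have : (K ∪ D)ᶜ = ∅ := Finset.card_eq_zero.1 (by omega)
    rw [this] at hm
    exact absurd hm (Finset.notMem_empty m)
  | succ n ih =>
    intro D l Y h hn hm hml
    obtain ⟨a, Y', h'⟩ := h.step hr hV hu hrich hc hm hml
    by_cases hma : m = a
    · subst hma
      exact ⟨_, Y', h'⟩
    · have hlc := h.mem c hc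
      have hsub : (K ∪ insert (l c) D)ᶜ ⊆ ((K ∪ D)ᶜ).erase (l c) := by
        intro i hi
        simp only [Finset.mem_compl, Finset.mem_union, Finset.mem_insert, not_or] at hi
        rw [Finset.mem_erase]
        refine ⟨hi.2.1, ?_⟩
        simp [hi.1, hi.2.2]
      have hcard := Finset.card_le_card hsub
      rw [Finset.card_erase_of_mem hlc] at hcard
      have hmL : m ∈ (K ∪ insert (l c) D)ᶜ := by
        simp only [Finset.mem_compl, Finset.mem_union, Finset.mem_insert, not_or] at hm ⊢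
        exact ⟨hm.1, hml c hc, hm.2⟩
      obtain ⟨D', Y'', h''⟩ := ih _ _ _ h' (by omega) hmL (by
        intro k hk
        by_cases hkc : k = c
        · rw [hkc, Function.update_self]
          exact hma
        · rw [Function.update_of_ne hkc]
          exact hml k hk)
      rw [Function.update_idem] at h''
      exact ⟨D', Y'', h''⟩

end Pool.Agent.H97.Mcm2
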