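import Mathlib
import Pool.Agent.H97.Mcm2.Chain

/-!
For `r ≥ 3` and `n ≥ 2 r - 1` some sign vector of a uniform `r`-dimensional subspace of `ℝ^n` is
realised together with at least `2 r - 1` of its single flips.
-/

set_option autoImplicit false

namespace Pool.Agent.H97.Mcm2

open Finset Pool.Agent.H97.Mcm

variable {ι : Type*} [Fintype ι] [DecidableEq ι]

variable {r : ℕ} {V : Submodule ℝ (ι → ℝ)} {K D : Finset ι} {c : ι} {l : ι → ι}
  {Y u : ι → ι → ℝ}

/-- The cells at the start. -/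
theorem nb_zero (hu : Chart r V K u) : Nb V K ∅ K ∅ := by
  refine ⟨Finset.disjoint_empty_right _, Finset.Subset.refl _, Finset.Subset.refl _, ?_, ?_⟩
  · intro P hP hne
    rw [Finset.union_empty]
    exact chart_tp hu hP hne
  · intro P _ _ x hx
    exact absurd hx (Finset.notMem_empty x)

/-- The start. -/
theorem base (hr : 3 ≤ r) (hV : Unif r V) (hu : Chart r V K u) (hL : r ≤ (Kᶜ : Finset ι).card)
    (hrich : ¬ Rich V (2 * r - 1)) :
    ∃ (l : ι → ι) (Y : ι → ι → ℝ), ∀ c, Mrel r V K ∅ c l Y := by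
  have e0 : (K ∪ ∅)ᶜ = Kᶜ := by rw [Finset.union_empty]
  obtain ⟨l, Y, h1, h2, h3, h4, h5⟩ := hull_simplex hr hV hu (nb_zero hu)
    (by rw [Finset.card_empty, zero_add, hu.card]) (by rw [e0]; exact hL) hrich (by
      intro G f hF
      left
      obtain ⟨i, hi⟩ : ∃ i, i ∈ (K ∪ ∅)ᶜ \ G := by
        refine Finset.card_pos.1 ?_
        rw [Finset.card_sdiff_of_subset hF.sub, e0]
        have := hF.card
        omega
      rw [Finset.mem_sdiff] at hi
      have hp := hF.pos i hi.1 hi.2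
      refine ⟨hF, fun i hi => absurd hi (Finset.notMem_empty i), fun k hk => hF.ne hV ?_ ?_,
        Finset.filter_subset _ _⟩
      · rintro rfl
        simp at hp
      · intro hkG
        have := hF.sub hkG
        simp [hk] at this)
  exact ⟨l, Y, fun c => ⟨Finset.disjoint_empty_right _, h1, h2, h3, h4, h5,
    fun d hd => absurd hd (Finset.notMem_empty d),
    fun _ _ _ d hd => absurd hd (Finset.notMem_empty d)⟩⟩

theorem rich_large (hr : 3 ≤ r) (hV : Unif r V) (hu : Chart r V K u)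
    (hL : r < (Kᶜ : Finset ι).card) : Rich V (2 * r - 1) := by
  by_contra hrich
  obtain ⟨l, Y, h⟩ := base hr hV hu hL.le hrich
  -- an element that is not a vertex
  obtain ⟨m, hm⟩ : ∃ m, m ∈ Kᶜ \ K.image l := by
    refine Finset.card_pos.1 ?_
    have h1 := Finset.le_card_sdiff (K.image l) Kᶜ
    have h2 : (K.image l).card ≤ r := by
      rw [← hu.card]
      exact Finset.card_image_le
    omega
  rw [Finset.mem_sdiff] at hm
  have hml : ∀ k ∈ K, m ≠ l k := by
    rintro k hk rfl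
    exact hm.2 (Finset.mem_image_of_mem l hk)
  have hmK : m ∈ (K ∪ ∅)ᶜ := by
    rw [Finset.union_empty]
    exact hm.1
  -- three elements of `K`
  obtain ⟨a, b, e, ha, hb, he, hab, hae, hbe⟩ : ∃ a b e, a ∈ K ∧ b ∈ K ∧ e ∈ K ∧ a ≠ b ∧ a ≠ e ∧
      b ≠ e := by
    have : 2 < K.card := by rw [hu.card]; omega
    obtain ⟨a, b, e, ha, hb, he, h1, h2, h3⟩ := Finset.two_lt_card_iff.1 this
    exact ⟨a, b, e, ha, hb, he, h1, h2, h3⟩
  obtain ⟨D₁, Y₁, h₁⟩ := chain hr hV hu hrich ha _ _ _ _ (h a) le_rfl hmK hml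
  obtain ⟨D₂, Y₂, h₂⟩ := chain hr hV hu hrich hb _ _ _ _ (h b) le_rfl hmK hml
  -- the two functionals vanish on the same set
  have hinj := (h a).inj
  let Z : Finset ι := insert m (((K.erase a).erase b).image l)
  have hmZ : m ∉ ((K.erase a).erase b).image l := by
    intro h'
    obtain ⟨j, hj, hj'⟩ := Finset.mem_image.1 h'
    exact hml j (Finset.mem_of_mem_erase (Finset.mem_of_mem_erase hj)) hj'.symm
  have hZ1 : ∀ i ∈ Z, Y₁ b i = 0 := by
    intro i hi
    rcases Finset.mem_insert.1 hi with rfl | hi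
    · have := h₁.zero hb ha hab
      rwa [Function.update_self] at this
    · obtain ⟨j, hj, rfl⟩ := Finset.mem_image.1 hi
      rw [Finset.mem_erase, Finset.mem_erase] at hj
      have := h₁.zero hb hj.2.2 hj.1
      rwa [Function.update_of_ne hj.2.1] at this
  have hZ2 : ∀ i ∈ Z, Y₂ a i = 0 := by
    intro i hi
    rcases Finset.mem_insert.1 hi with rfl | hi
    · have := h₂.zero ha hb (Ne.symm hab)
      rwa [Function.update_self] at this
    · obtain ⟨j, hj, rfl⟩ := Finset.mem_image.1 hi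
      rw [Finset.mem_erase, Finset.mem_erase] at hj
      have := h₂.zero ha hj.2.2 hj.2.1
      rwa [Function.update_of_ne hj.1] at this
  have hbZ : b ∉ Z := by
    intro h'
    rcases Finset.mem_insert.1 h' with h' | h'
    · have := hm.1
      rw [← h', Finset.mem_compl] at this
      exact this hb
    · obtain ⟨j, hj, hj'⟩ := Finset.mem_image.1 h'
      have := (h a).lK (k := j) (Finset.mem_of_mem_erase (Finset.mem_of_mem_erase hj))
      rw [hj'] at this
      exact this hb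
  have hcard : (insert b Z).card = r := by
    rw [Finset.card_insert_of_notMem hbZ, Finset.card_insert_of_notMem hmZ,
      Finset.card_image_of_injOn, Finset.card_erase_of_mem (Finset.mem_erase.2 ⟨Ne.symm hab, hb⟩),
      Finset.card_erase_of_mem ha, hu.card]
    · omega
    · intro i hi j hj hij
      have hi' := Finset.mem_coe.1 hi
      have hj' := Finset.mem_coe.1 hj
      exact hinj i (Finset.mem_of_mem_erase (Finset.mem_of_mem_erase hi')) j
        (Finset.mem_of_mem_erase (Finset.mem_of_mem_erase hj')) hij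
  have h3 : (Y₂ a b) • Y₁ b - (Y₁ b b) • Y₂ a = 0 := by
    refine hV.uq (insert b Z) hcard _ (V.sub_mem (V.smul_mem _ (h₁.fac b hb).mem)
      (V.smul_mem _ (h₂.fac a ha).mem)) ?_
    intro i hi
    simp only [Pi.sub_apply, Pi.smul_apply, smul_eq_mul]
    rcases Finset.mem_insert.1 hi with rfl | hi
    · ring
    · rw [hZ1 i hi, hZ2 i hi, mul_zero, mul_zero, sub_zero]
  have h4 := congrFun h3 e
  simp only [Pi.sub_apply, Pi.smul_apply, smul_eq_mul, Pi.zero_apply] at h4
  have e1 : 0 < Y₁ b b := h₁.pos b hb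
  have e2 : Y₁ b e < 0 := h₁.neg b hb e he (Ne.symm hbe)
  have e3 : Y₂ a b < 0 := h₂.neg a ha b hb (Ne.symm hab)
  have e4 : Y₂ a e < 0 := h₂.neg a ha e he (Ne.symm hae)
  have e5 := mul_pos_of_neg_of_neg e3 e2
  have e6 := mul_neg_of_pos_of_neg e1 e4
  linarith

/-- The case `n = 2 r - 1`. -/
theorem rich_small (hr : 3 ≤ r) (hV : Unif r V) (hu : Chart r V K u)
    (hL : (Kᶜ : Finset ι).card + 1 = r) : Rich V (2 * r - 1) := by
  have hn : r ≤ Fintype.card ι := by
    rw [← hu.card]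
    exact Finset.card_le_univ K
  obtain ⟨k₀, hk₀⟩ : K.Nonempty := Finset.card_pos.1 (by rw [hu.card]; omega)
  have hk₀' : k₀ ∉ Kᶜ := by simp [hk₀]
  obtain ⟨f, hf, hf'⟩ := hV.ex (insert k₀ Kᶜ) (by
    rw [Finset.card_insert_of_notMem hk₀']; exact hL) (fun i => if i = k₀ then 1 else 0)
  have hfk : f k₀ = 1 := by rw [hf' k₀ (Finset.mem_insert_self _ _), if_pos rfl]
  have hf0 : ∀ i ∈ Kᶜ, f i = 0 := by
    intro i hi
    rw [hf' i (Finset.mem_insert_of_mem hi), if_neg]
    rintro rfl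
    exact hk₀' hi
  have hne : ∀ i ∈ K, f i ≠ 0 := by
    intro i hi
    refine hV.ne_zero (G := Kᶜ) hL hf hf0 ?_ (by simp [hi])
    rintro rfl
    simp at hfk
  have e0 : (K ∪ ∅)ᶜ = Kᶜ := by rw [Finset.union_empty]
  -- a sign with two positive places
  have key : ∀ g ∈ V, (∀ i ∈ Kᶜ, g i = 0) → (∀ i ∈ K, g i ≠ 0) → ∀ a ∈ K, ∀ b ∈ K, a ≠ b →
      0 < g a → 0 < g b → Rich V (2 * r - 1) := by
    intro g hg hg0 hgne a ha b hb hab hga hgb
    refine rich_two (G := Kᶜ) hV hn (nb_zero hu) (by rw [Finset.card_empty, zero_add, hu.card])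
      (f := g) ⟨⟨by rw [e0], hL, hg, hg0, fun i hi hi' => ?_⟩, fun i hi =>
        absurd hi (Finset.notMem_empty i), hgne, Finset.filter_subset _ _⟩
      (Finset.mem_filter.2 ⟨ha, hga⟩) (Finset.mem_filter.2 ⟨hb, hgb⟩) hab
    rw [e0] at hi
    exact absurd hi hi'
  obtain ⟨a, b, e, ha, hb, he, hab, hae, hbe⟩ : ∃ a b e, a ∈ K ∧ b ∈ K ∧ e ∈ K ∧ a ≠ b ∧ a ≠ e ∧
      b ≠ e := by
    have : 2 < K.card := by rw [hu.card]; omega
    obtain ⟨a, b, e, ha, hb, he, h1, h2, h3⟩ := Finset.two_lt_card_iff.1 this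
    exact ⟨a, b, e, ha, hb, he, h1, h2, h3⟩
  have hn0 : ∀ i ∈ Kᶜ, (-f) i = 0 := fun i hi => by rw [Pi.neg_apply, hf0 i hi, neg_zero]
  have hn1 : ∀ i ∈ K, (-f) i ≠ 0 := fun i hi => by
    rw [Pi.neg_apply]
    exact neg_ne_zero.2 (hne i hi)
  have hnm : ∀ i ∈ K, ¬ 0 < f i → 0 < (-f) i := by
    intro i hi hi'
    rw [Pi.neg_apply, neg_pos]
    exact lt_of_le_of_ne (not_lt.1 hi') (hne i hi)
  by_cases h1 : 0 < f a
  · by_cases h2 : 0 < f b
    · exact key f hf hf0 hne a ha b hb hab h1 h2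
    · by_cases h3 : 0 < f e
      · exact key f hf hf0 hne a ha e he hae h1 h3
      · exact key (-f) (V.neg_mem hf) hn0 hn1 b hb e he hbe (hnm b hb h2) (hnm e he h3)
  · by_cases h2 : 0 < f b
    · by_cases h3 : 0 < f e
      · exact key f hf hf0 hne b hb e he hbe h2 h3
      · exact key (-f) (V.neg_mem hf) hn0 hn1 a ha e he hae (hnm a ha h1) (hnm e he h3)
    · exact key (-f) (V.neg_mem hf) hn0 hn1 a ha b hb hab (hnm a ha h1) (hnm b hb h2)

/-- The abstract theorem. -/
theorem main {r : ℕ} (hr : 3 ≤ r) (hn : 2 * r - 1 ≤ Fintype.card ι) {V : Submodule ℝ (ι → ℝ)}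
    (hV : Unif r V) : ∃ (s : ι → ℝ) (B : Finset ι), Rls V s ∧ 2 * r - 1 ≤ B.card ∧
      ∀ m ∈ B, Rls V (flp s m) := by
  classical
  by_cases h2r : Fintype.card ι = 2 * r
  · obtain ⟨b, s, hs, hm⟩ := near hr h2r hV
    refine ⟨s, univ.erase b, hs, ?_, fun m hm' => hm m (Finset.mem_erase.1 hm').1⟩
    rw [Finset.card_erase_of_mem (Finset.mem_univ b), Finset.card_univ, h2r]
  obtain ⟨K, u, ρ, hKc, hρ, huV, hu0, huk, hul⟩ := exists_simplex (by omega) (by omega) hV
  have hρ2 : ∀ i, ρ i * ρ i = 1 := by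
    intro i
    rcases hρ i with h | h <;> rw [h] <;> norm_num
  -- the reoriented space
  let D : (ι → ℝ) →ₗ[ℝ] (ι → ℝ) := LinearMap.pi fun i => ρ i • LinearMap.proj i
  have hD : ∀ (f : ι → ℝ) (i : ι), D f i = ρ i * f i := fun f i => by simp [D]
  have hDD : ∀ f : ι → ℝ, D (D f) = f := by
    intro f
    funext i
    rw [hD, hD, ← mul_assoc, hρ2, one_mul]
  let V' : Submodule ℝ (ι → ℝ) := V.comap D
  have hmem : ∀ f, f ∈ V → D f ∈ V' := by
    intro f hf
    show D (D f) ∈ V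
    rw [hDD]
    exact hf
  have hV' : Unif r V' := by
    constructor
    · intro K hK t
      obtain ⟨f, hf, hft⟩ := hV.ex K hK (D t)
      refine ⟨D f, hmem f hf, fun i hi => ?_⟩
      rw [hD, hft i hi, hD, ← mul_assoc, hρ2, one_mul]
    · intro K hK f hf h0
      have h1 : D f = 0 := hV.uq K hK (D f) hf fun i hi => by rw [hD, h0 i hi, mul_zero]
      rw [← hDD f, h1, map_zero]
  have hchart : Chart r V' K (fun k => D (u k)) := by
    refine ⟨hKc, fun k hk => hmem _ (huV k hk), ?_, ?_, ?_⟩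
    · intro k hk j hj hjk
      rw [hD, hu0 k hk j hj hjk, mul_zero]
    · intro k hk
      rw [hD]
      exact huk k hk
    · intro k hk l hl
      rw [hD]
      exact hul k hk l hl
  have hL : (Kᶜ : Finset ι).card = Fintype.card ι - r := by
    rw [Finset.card_compl, hKc]
  have hrich : Rich V' (2 * r - 1) := by
    by_cases hs : Fintype.card ι = 2 * r - 1
    · exact rich_small hr hV' hchart (by omega)
    · exact rich_large hr hV' hchart (by omega)
  obtain ⟨N, B, hN, hB, hm⟩ := hrich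
  have tr : ∀ s' s'' : ι → ℝ, (∀ i, s'' i = ρ i * s' i) → Rls V' s' → Rls V s'' := by
    rintro s' s'' h ⟨f, hf, hfs⟩
    refine ⟨D f, hf, fun i => ?_⟩
    rw [hD, h, show ρ i * s' i * (ρ i * f i) = (ρ i * ρ i) * (s' i * f i) by ring, hρ2, one_mul]
    exact hfs i
  refine ⟨fun i => ρ i * sg N i, B, tr _ _ (fun i => rfl) hN.rls, hB, fun m hmb => ?_⟩
  refine tr (flp (sg N) m) _ (fun i => ?_) (by rw [← sg_symmDiff]; exact (hm m hmb).rls)
  by_cases him : i = m
  · simp [flp, him]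
  · simp [flp, him]

end Pool.Agent.H97.Mcm2
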